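import Pool.Agent.Helper95.Lin.GoalsH

/-! # LEIB and LEXP: the Leibniz rule and the chain rule for an exponential -/

open Complex Metric Set Filter Topology MeasureTheory
open scoped ContDiff ComplexConjugate ComplexOrder

namespace Pool.Agent.Helper32.Lin

open Pool.Agent.Helper95.Lin

variable {n : ℕ} {M : Set (Cn n)}

/-- Partial derivatives of smooth functions are smooth. -/
theorem dd_contDiffOn (hM : IsOpen M) {φ : Cn n → ℝ} (hφ : ContDiffOn ℝ ∞ φ M)
    (b : Fin n × Bool) : ContDiffOn ℝ ∞ (dd φ b) M := by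
  unfold dd
  exact (hφ.fderiv_of_isOpen hM (m := ∞) (by simp)).clm_apply contDiffOn_const

theorem dd_differentiableAt (hM : IsOpen M) {φ : Cn n → ℝ} (hφ : ContDiffOn ℝ ∞ φ M)
    (b : Fin n × Bool) {x : Cn n} (hx : x ∈ M) : DifferentiableAt ℝ (dd φ b) x :=
  ((dd_contDiffOn hM hφ b).differentiableOn (by simp)).differentiableAt (hM.mem_nhds hx)

theorem cd_differentiableAt (hM : IsOpen M) {φ : Cn n → ℝ} (hφ : ContDiffOn ℝ ∞ φ M)
    {x : Cn n} (hx : x ∈ M) : DifferentiableAt ℝ φ x :=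
  (hφ.differentiableOn (by simp)).differentiableAt (hM.mem_nhds hx)

/-- Partial derivatives are local. -/
theorem dd_congr {φ ψ : Cn n → ℝ} {x : Cn n} (h : φ =ᶠ[𝓝 x] ψ) (b : Fin n × Bool) :
    dd φ b x = dd ψ b x := by
  unfold dd
  rw [h.fderiv_eq]

theorem dd_mul {φ ψ : Cn n → ℝ} {x : Cn n} (hφ : DifferentiableAt ℝ φ x)
    (hψ : DifferentiableAt ℝ ψ x) (b : Fin n × Bool) :
    dd (fun y => φ y * ψ y) b x = φ x * dd ψ b x + ψ x * dd φ b x := by
  unfold dd
  rw [fderiv_fun_mul hφ hψ]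
  simp

theorem dd_add {φ ψ : Cn n → ℝ} {x : Cn n} (hφ : DifferentiableAt ℝ φ x)
    (hψ : DifferentiableAt ℝ ψ x) (b : Fin n × Bool) :
    dd (fun y => φ y + ψ y) b x = dd φ b x + dd ψ b x := by
  unfold dd
  rw [fderiv_fun_add hφ hψ]
  simp

theorem dd_dd_mul (hM : IsOpen M) {φ ψ : Cn n → ℝ} (hφ : ContDiffOn ℝ ∞ φ M)
    (hψ : ContDiffOn ℝ ∞ ψ M) (a b : Fin n × Bool) {x : Cn n} (hx : x ∈ M) :
    dd (dd (φ * ψ) b) a x = φ x * dd (dd ψ b) a x + dd ψ b x * dd φ a x +
      (ψ x * dd (dd φ b) a x + dd φ b x * dd ψ a x) := by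
  have h1 : dd (φ * ψ) b =ᶠ[𝓝 x] fun y => φ y * dd ψ b y + ψ y * dd φ b y := by
    filter_upwards [hM.mem_nhds hx] with y hy
    exact dd_mul (cd_differentiableAt hM hφ hy) (cd_differentiableAt hM hψ hy) b
  have dφ := cd_differentiableAt hM hφ hx
  have dψ := cd_differentiableAt hM hψ hx
  have eφ := dd_differentiableAt hM hφ b hx
  have eψ := dd_differentiableAt hM hψ b hx
  have f1 : DifferentiableAt ℝ (fun y => φ y * dd ψ b y) x := dφ.mul eψ
  have f2 : DifferentiableAt ℝ (fun y => ψ y * dd φ b y) x := dψ.mul eφ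
  rw [dd_congr h1, dd_add f1 f2, dd_mul dφ eψ, dd_mul dψ eφ]

theorem sLEIB : S_LEIB := by
  intro n M P hM hs φ ψ hφ hψ x hx
  unfold Lop Bop
  have hc : ∑ a, ∑ b, P a b x * dd φ b x * dd ψ a x = ∑ a, ∑ b, P a b x * dd φ a x * dd ψ b x := by
    rw [Finset.sum_comm]
    refine Finset.sum_congr rfl fun a _ => Finset.sum_congr rfl fun b _ => ?_
    rw [hs b a x hx]
  have h1 : ∀ a b, P a b x * dd (dd (φ * ψ) b) a x = φ x * (P a b x * dd (dd ψ b) a x) +
      ψ x * (P a b x * dd (dd φ b) a x) + (P a b x * dd φ a x * dd ψ b x +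
        P a b x * dd φ b x * dd ψ a x) := by
    intro a b
    rw [dd_dd_mul hM hφ hψ a b hx]
    ring
  simp only [h1, Finset.sum_add_distrib, ← Finset.mul_sum]
  rw [hc]
  ring

theorem dd_exp {ρ : Cn n → ℝ} {x : Cn n} (hρ : DifferentiableAt ℝ ρ x) (t : ℝ)
    (b : Fin n × Bool) : dd (fun y => Real.exp (t * ρ y)) b x =
      Real.exp (t * ρ x) * (t * dd ρ b x) := by
  unfold dd
  have h : HasFDerivAt (fun y => Real.exp (t * ρ y))
      (Real.exp (t * ρ x) • (t • fderiv ℝ ρ x)) x :=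
    ((hρ.hasFDerivAt.const_mul t).exp)
  rw [h.fderiv]
  simp

theorem sLEXP : S_LEXP := by
  intro n M P hM ρ hρ t x hx
  unfold Lop Bop
  have h1 : ∀ a b, dd (dd (fun y => Real.exp (t * ρ y)) b) a x =
      Real.exp (t * ρ x) * (t * dd (dd ρ b) a x) + t * dd ρ b x *
        (Real.exp (t * ρ x) * (t * dd ρ a x)) := by
    intro a b
    have h2 : dd (fun y => Real.exp (t * ρ y)) b =ᶠ[𝓝 x]
        fun y => Real.exp (t * ρ y) * (t * dd ρ b y) := by
      filter_upwards [hM.mem_nhds hx] with y hy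
      exact dd_exp (cd_differentiableAt hM hρ hy) t b
    have d1 := cd_differentiableAt hM hρ hx
    have d2 := dd_differentiableAt hM hρ b hx
    have d3 : DifferentiableAt ℝ (fun y => Real.exp (t * ρ y)) x := (d1.const_mul t).exp
    have d4 : DifferentiableAt ℝ (fun y => t * dd ρ b y) x := d2.const_mul t
    rw [dd_congr h2, dd_mul d3 d4, dd_exp d1]
    congr 2
    unfold dd
    rw [fderiv_const_mul]
    · simp
    · exact d2
  have h3 : ∀ a b, P a b x * dd (dd (fun y => Real.exp (t * ρ y)) b) a x =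
      Real.exp (t * ρ x) * (t * (P a b x * dd (dd ρ b) a x) +
        t ^ 2 * (P a b x * dd ρ a x * dd ρ b x)) := by
    intro a b
    rw [h1]
    ring
  simp only [h3, ← Finset.mul_sum, Finset.sum_add_distrib]

end Pool.Agent.Helper32.Lin
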