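import Pool.Agent.Helper95.Lin.GoalsH

/-! # WEAK: the weak equation for the logarithm -/

open Complex Metric Set Filter Topology MeasureTheory
open scoped ContDiff ComplexConjugate ComplexOrder

namespace Pool.Agent.Helper32.Lin

open Pool.Agent.Helper95.Lin

section lev

variable {n : ℕ} {ψ : Cn n → ℝ}

theorem hess_eq_zero {x : Cn n} (hx : x ∉ tsupport ψ) (u v : Cn n) : hess ψ x u v = 0 := by
  have h := notMem_tsupport_iff_eventuallyEq.1 hx
  have h2 : (fun y => fderiv ℝ ψ y v) =ᶠ[𝓝 x] fun _ => (0 : ℝ) := by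
    filter_upwards [h.fderiv (𝕜 := ℝ)] with y hy
    rw [hy]
    simp
  unfold hess
  rw [h2.fderiv_eq]
  simp

theorem lev_eq_zero {x : Cn n} (hx : x ∉ tsupport ψ) (e : Cn n) : lev ψ x e = 0 := by
  unfold lev
  rw [hess_eq_zero hx, hess_eq_zero hx, add_zero]

theorem contDiff_dir (hψ : ContDiff ℝ ∞ ψ) (v : Cn n) :
    ContDiff ℝ ∞ (fun y => fderiv ℝ ψ y v) :=
  (hψ.fderiv_right (m := ∞) (by simp)).clm_apply contDiff_const

theorem contDiff_hess (hψ : ContDiff ℝ ∞ ψ) (u v : Cn n) :
    ContDiff ℝ ∞ (fun x => hess ψ x u v) :=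
  contDiff_dir (contDiff_dir hψ v) u

theorem contDiff_lev (hψ : ContDiff ℝ ∞ ψ) (e : Cn n) : ContDiff ℝ ∞ (fun x => lev ψ x e) :=
  (contDiff_hess hψ e e).add (contDiff_hess hψ (I • e) (I • e))

theorem hasCompactSupport_dir (hc : HasCompactSupport ψ) (v : Cn n) :
    HasCompactSupport (fun y => fderiv ℝ ψ y v) :=
  hc.fderiv_apply (𝕜 := ℝ) v

/-- The integral of a directional derivative of a function with compact support vanishes. -/
theorem integral_dir_eq_zero (hψ : ContDiff ℝ ∞ ψ) (hc : HasCompactSupport ψ) (v : Cn n) :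
    ∫ x, fderiv ℝ ψ x v = 0 := by
  have h1 : Integrable (fun x => fderiv ℝ ψ x v) :=
    (contDiff_dir hψ v).continuous.integrable_of_hasCompactSupport (hasCompactSupport_dir hc v)
  have h2 : Integrable ψ := hψ.continuous.integrable_of_hasCompactSupport hc
  have h := integral_mul_fderiv_eq_neg_fderiv_mul_of_integrable (μ := (volume : Measure (Cn n)))
    (𝕜 := ℝ) (f := fun _ : Cn n => (1 : ℝ)) (g := ψ) (v := v) (by simp) (by simpa using h1)
    (by simpa using h2) (fun x _ => by fun_prop)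
    (fun x _ => (hψ.differentiable (by simp)).differentiableAt)
  simpa using h

theorem integral_hess_eq_zero (hψ : ContDiff ℝ ∞ ψ) (hc : HasCompactSupport ψ) (u v : Cn n) :
    ∫ x, hess ψ x u v = 0 :=
  integral_dir_eq_zero (contDiff_dir hψ v) (hasCompactSupport_dir hc v) u

theorem integrable_hess (hψ : ContDiff ℝ ∞ ψ) (hc : HasCompactSupport ψ) (u v : Cn n) :
    Integrable (fun x => hess ψ x u v) :=
  (contDiff_hess hψ u v).continuous.integrable_of_hasCompactSupport
    (hasCompactSupport_dir (hasCompactSupport_dir hc v) u)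

theorem integral_lev_eq_zero (hψ : ContDiff ℝ ∞ ψ) (hc : HasCompactSupport ψ) (e : Cn n) :
    ∫ x, lev ψ x e = 0 := by
  unfold lev
  rw [integral_add (integrable_hess hψ hc _ _) (integrable_hess hψ hc _ _),
    integral_hess_eq_zero hψ hc, integral_hess_eq_zero hψ hc, add_zero]

end lev

/-- The difference quotient of `s ↦ F ^ s` at `0` is bounded. -/
theorem abs_quot_le {F s : ℝ} (hF : 0 < F) (hs : 0 < s) (hs1 : s ≤ 1) :
    |s⁻¹ * (F ^ s - 1)| ≤ |Real.log F| + F + 1 := by
  have h1 : Real.log F ≤ s⁻¹ * (F ^ s - 1) := by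
    have h := Real.add_one_le_exp (s * Real.log F)
    have h2 : F ^ s = Real.exp (s * Real.log F) := by
      rw [Real.rpow_def_of_pos hF, mul_comm]
    rw [inv_mul_eq_div, le_div_iff₀ hs, h2]
    linarith
  have h2 : s⁻¹ * (F ^ s - 1) ≤ F - 1 := by
    have h := rpow_one_add_le_one_add_mul_self (s := F - 1) (by linarith) hs.le hs1
    rw [add_sub_cancel] at h
    rw [inv_mul_eq_div, div_le_iff₀ hs]
    nlinarith
  rw [abs_le]
  constructor
  · have := neg_abs_le (Real.log F)
    linarith
  · have := abs_nonneg (Real.log F)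
    linarith

theorem sWEAK : S_WEAK := by
  intro n M hM F hF hF0 hnull hlog ψ hψ e
  obtain ⟨hψs, hψc, hψM⟩ := hψ
  set K := tsupport ψ with hK
  have hKc : IsCompact K := hψc
  have hKm : MeasurableSet K := hKc.measurableSet
  have hcont : Continuous fun x => lev ψ x e := (contDiff_lev hψs e).continuous
  obtain ⟨C, hC⟩ : ∃ C : ℝ, ∀ x ∈ K, ‖lev ψ x e‖ ≤ C :=
    hKc.exists_bound_of_continuousOn hcont.continuousOn
  have hKsub : ∀ G : Cn n → ℝ, ∫ x in M, G x * lev ψ x e = ∫ x in K, G x * lev ψ x e := by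
    intro G
    refine setIntegral_eq_of_subset_of_forall_sdiff_eq_zero hM.measurableSet hψM ?_
    rintro x ⟨_, hx⟩
    rw [lev_eq_zero hx, mul_zero]
  have hlevK : ∫ x in K, lev ψ x e = 0 := by
    have h := setIntegral_eq_of_subset_of_forall_sdiff_eq_zero (μ := (volume : Measure (Cn n)))
      (f := fun x => lev ψ x e) MeasurableSet.univ (subset_univ K)
      (fun x hx => lev_eq_zero hx.2 e)
    rw [← h, setIntegral_univ]
    exact integral_lev_eq_zero hψs hψc e
  have hFK : ContinuousOn F K := hF.mono hψM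
  have hpow : ∀ s : ℝ, 0 < s → ContinuousOn (fun x => F x ^ s) K := fun s hs =>
    hFK.rpow_const fun x hx => Or.inr hs.le
  rw [hKsub]
  have hae : ∀ᵐ x ∂(volume.restrict K), x ∈ K ∧ 0 < F x := by
    have h1 : ∀ᵐ x ∂(volume.restrict K), x ∈ K := ae_restrict_mem hKm
    have h2 : ∀ᵐ x ∂(volume.restrict K), x ∉ {x | x ∈ M ∧ F x = 0} :=
      ae_restrict_of_ae (measure_eq_zero_iff_ae_notMem.1 hnull)
    filter_upwards [h1, h2] with x hx hx2
    refine ⟨hx, lt_of_le_of_ne (hF0 x (hψM hx)) fun h => hx2 ⟨hψM hx, h.symm⟩⟩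
  have hmain : Tendsto (fun s : ℝ => ∫ x in K, (s⁻¹ * (F x ^ s - 1)) * lev ψ x e) (𝓝[>] 0)
      (𝓝 (∫ x in K, Real.log (F x) * lev ψ x e)) := by
    refine tendsto_integral_filter_of_dominated_convergence
      (fun x => (|Real.log (F x)| + F x + 1) * C) ?_ ?_ ?_ ?_
    · filter_upwards [self_mem_nhdsWithin] with s hs
      refine ContinuousOn.aestronglyMeasurable ?_ hKm
      exact (continuousOn_const.mul ((hpow s hs).sub continuousOn_const)).mul hcont.continuousOn
    · have h01 : ∀ᶠ s : ℝ in 𝓝[>] 0, s ≤ 1 :=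
        nhdsWithin_le_nhds (Iic_mem_nhds one_pos)
      filter_upwards [self_mem_nhdsWithin, h01] with s hs hs1
      filter_upwards [hae] with x hx
      rw [norm_mul]
      exact mul_le_mul (abs_quot_le hx.2 hs hs1) (hC x hx.1) (norm_nonneg _)
        (by have := abs_nonneg (Real.log (F x)); have := hx.2; linarith)
    · refine Integrable.mul_const ?_ C
      have h1 : IntegrableOn (fun x => |Real.log (F x)|) K := (hlog K hψM hKc).abs
      have h2 : IntegrableOn F K := hFK.integrableOn_compact hKc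
      have h3 : IntegrableOn (fun _ : Cn n => (1 : ℝ)) K :=
        continuousOn_const.integrableOn_compact hKc
      exact (h1.add h2).add h3
    · filter_upwards [hae] with x hx
      exact (tendsto_rpow_sub_one_log hx.2).mul_const _
  refine hmain.congr' ?_
  filter_upwards [self_mem_nhdsWithin] with s hs
  rw [hKsub, ← integral_const_mul]
  have hi1 : IntegrableOn (fun x => s⁻¹ * (F x ^ s * lev ψ x e)) K :=
    ContinuousOn.integrableOn_compact hKc
      (continuousOn_const.mul ((hpow s hs).mul hcont.continuousOn))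
  have hi2 : IntegrableOn (fun x => s⁻¹ * lev ψ x e) K :=
    ContinuousOn.integrableOn_compact hKc (continuousOn_const.mul hcont.continuousOn)
  have h : ∀ x, (s⁻¹ * (F x ^ s - 1)) * lev ψ x e =
      s⁻¹ * (F x ^ s * lev ψ x e) - s⁻¹ * lev ψ x e := fun x => by ring
  simp only [h]
  rw [integral_sub hi1 hi2, integral_const_mul (s⁻¹) (fun x => lev ψ x e), hlevK]
  simp

end Pool.Agent.Helper32.Lin
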